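import Mathlib
import Pool.Agent.J4.H38.DV.TDefs
import Pool.Agent.J4.H31.DV.Rav2

/-! Project DV (helper38), twin version, piece RAVT: the local densities of almost all sets of multiples of `W`. Copy of the
pieces RAV1, RAV2 of helper31 with the shift `0`. -/

set_option autoImplicit false

namespace Pool.Agent.J4.H55.DV

open Finset Filter
open Pool.Agent.Y822
open Pool.Agent.J4.H38.SR
open Pool.Agent.J4.H38.SR2
open Pool.Agent.J4.H38.DV
open Pool.Agent.J4.H31.DV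
open Pool.Agent.H387R2.Uni (nuT)
open Pool.Agent.H373R2.T7 (pz Vz mem_pz rhoA PerA lam_fund facA)

/-- **RAV1** with the shift `0` -/
theorem rav1T (C η : ℝ) (hC : 0 ≤ C) (hη : 0 < η) : ∃ w₀ : ℕ, 2 ≤ w₀ ∧ ∀ w : ℕ, w₀ ≤ w → ∃ H₀ : ℕ, ∀ H y : ℕ,
    H₀ ≤ H →
    ∑ t ∈ AW w 0 H, (∏ p ∈ (pz y).filter (fun p => w < p ∧ p ∣ 0 + t), (1 + C / (p : ℝ)) - 1) ≤ η * (AW w 0 H).card ∧
    ∀ s ∈ AW w 0 H, ∑ t ∈ (AW w 0 H).erase s,
      (∏ p ∈ (pz y).filter (fun p => w < p ∧ (p : ℤ) ∣ (s : ℤ) - t), (1 + C / (p : ℝ)) - 1) ≤ η * (AW w 0 H).card := by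
  classical
  refine ⟨2 + ⌈C⌉₊ + ⌈32 * C / η⌉₊, by omega, fun w hw => ?_⟩
  have hwc1 : ⌈C⌉₊ ≤ w := by omega
  have hwc2 : ⌈32 * C / η⌉₊ ≤ w := by omega
  have hwr1 : C ≤ w := (Nat.le_ceil _).trans (Nat.cast_le.2 hwc1)
  have hwr2 : 32 * C / η ≤ w := (Nat.le_ceil _).trans (Nat.cast_le.2 hwc2)
  have hw0 : (0 : ℝ) < w := by exact_mod_cast (by omega : 0 < w)
  have hW := Wp_pos w
  have hW0 : (0 : ℝ) < Wp w := by exact_mod_cast hW
  have hCw : 2 * (C / w) ≤ η / 16 := by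
    rw [div_le_iff₀ hη] at hwr2
    have h1 : C / w ≤ η / 32 := by
      rw [div_le_iff₀ hw0]
      linarith
    linarith
  -- conditions on `H`
  have hsm := prod_small C hC (η / (16 * Wp w)) (by positivity)
  obtain ⟨H₀, hH₀⟩ := eventually_atTop.1 (hsm.and (eventually_ge_atTop (max 3 (2 * Wp w))))
  refine ⟨H₀, fun H y hHH => ?_⟩
  obtain ⟨hP, hH2⟩ := hH₀ H hHH
  have hH3 : 3 ≤ H := (le_max_left _ _).trans hH2
  have hHW : 2 * Wp w ≤ H := (le_max_right _ _).trans hH2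
  have hH0 : (0 : ℝ) < H := by exact_mod_cast (by omega : 0 < H)
  have hcard := card_AW w 0 H
  have hcW : (2 : ℝ) ≤ H / Wp w := by
    rw [le_div_iff₀ hW0]
    exact_mod_cast hHW
  have hc1 : (1 : ℝ) ≤ (AW w 0 H).card := by linarith
  have hHc : (H : ℝ) / Wp w ≤ 2 * (AW w 0 H).card := by linarith
  have hone : ∀ p : ℕ, (1 : ℝ) ≤ 1 + C / (p : ℝ) := fun p => by
    have : 0 ≤ C / (p : ℝ) := by positivity
    linarith
  -- the main bound
  have hmain : ∀ a : ℤ, (∀ t ∈ AW w 0 H, (Wp w : ℤ) ∣ (t : ℤ) + a) →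
      ∑ t ∈ AW w 0 H, (∏ p ∈ (pz H).filter (fun p => w < p ∧ (p : ℤ) ∣ (t : ℤ) + a), (1 + C / (p : ℝ)) - 1) ≤
        η / 4 * (AW w 0 H).card := by
    intro a ha
    refine (sumA C hC a w 0 H ha).trans ?_
    have h1 := (prod_sq C hC w H (by omega) hwr1).trans hCw
    have h2 : (H : ℝ) / Wp w * (∏ p ∈ (pz H).filter (fun p => w < p), (1 + C / (p : ℝ) ^ 2) - 1) ≤
        H / Wp w * (η / 16) := mul_le_mul_of_nonneg_left h1 (by positivity)
    have h3 : H / Wp w * (η / 16) ≤ 2 * (AW w 0 H).card * (η / 16) :=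
      mul_le_mul_of_nonneg_right hHc (by positivity)
    have h4 : η / (16 * Wp w) * H = H / Wp w * (η / 16) := by field_simp
    rw [h4] at hP
    linarith
  constructor
  · have h1 : ∀ t ∈ AW w 0 H, ∏ p ∈ (pz y).filter (fun p => w < p ∧ p ∣ 0 + t), (1 + C / (p : ℝ)) - 1 ≤
        ∏ p ∈ (pz H).filter (fun p => w < p ∧ (p : ℤ) ∣ (t : ℤ) + 0), (1 + C / (p : ℝ)) - 1 := by
      intro t ht
      have htH := mem_Icc.1 (mem_filter.1 ht).1
      refine sub_le_sub_right ?_ 1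
      refine prod_le_prod_of_subset_of_one_le ?_ (fun p _ => by positivity) fun p _ _ => hone p
      intro p hp
      rw [mem_filter, mem_pz] at hp
      rw [mem_filter, mem_pz]
      have h4 : p ∣ t := by
        have := hp.2.2
        rwa [zero_add] at this
      refine ⟨⟨(Nat.le_of_dvd (by omega) h4).trans htH.2, hp.1.2⟩, hp.2.1, ?_⟩
      rw [add_zero]
      exact Int.natCast_dvd_natCast.2 h4
    refine (sum_le_sum h1).trans ?_
    have h2 := hmain 0 fun t ht => by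
      have h3 := (mem_filter.1 ht).2
      rw [zero_add] at h3
      rw [add_zero]
      exact Int.natCast_dvd_natCast.2 h3
    nlinarith
  · intro s hs
    have h2 := hmain (-(s : ℤ)) fun t ht => by
      have h3 : Wp w ∣ 0 + t := (mem_filter.1 ht).2
      have h4 : Wp w ∣ 0 + s := (mem_filter.1 hs).2
      have : ((t : ℤ) + -s) = ((0 + t : ℕ) : ℤ) - ((0 + s : ℕ) : ℤ) := by push_cast; ring
      rw [this]
      exact dvd_sub (Int.natCast_dvd_natCast.2 h3) (Int.natCast_dvd_natCast.2 h4)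
    have h3 : ∀ t ∈ (AW w 0 H).erase s,
        ∏ p ∈ (pz y).filter (fun p => w < p ∧ (p : ℤ) ∣ (s : ℤ) - t), (1 + C / (p : ℝ)) - 1 ≤
        ∏ p ∈ (pz H).filter (fun p => w < p ∧ (p : ℤ) ∣ (t : ℤ) + -s), (1 + C / (p : ℝ)) - 1 := by
      intro t ht
      refine sub_le_sub_right ?_ 1
      refine prod_le_prod_of_subset_of_one_le ?_ (fun p _ => by positivity) fun p _ _ => hone p
      intro p hp
      rw [mem_filter, mem_pz] at hp
      rw [mem_filter, mem_pz]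
      have htH := mem_Icc.1 (mem_filter.1 (mem_of_mem_erase ht)).1
      have hsH := mem_Icc.1 (mem_filter.1 hs).1
      have hne : s ≠ t := (ne_of_mem_erase ht).symm
      have h4 : (p : ℤ) ∣ (t : ℤ) + -s := by
        have : (t : ℤ) + -s = -((s : ℤ) - t) := by ring
        rw [this]
        exact (dvd_neg).2 hp.2.2
      refine ⟨⟨?_, hp.1.2⟩, hp.2.1, h4⟩
      have h5 : (s : ℤ) - t ≠ 0 := by
        intro h
        exact hne (by exact_mod_cast (sub_eq_zero.1 h))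
      have h6 := Int.le_of_dvd (abs_pos.2 h5) ((dvd_abs _ _).2 hp.2.2)
      have h7 : |(s : ℤ) - t| ≤ H := by
        rw [abs_le]
        constructor <;> omega
      exact_mod_cast h6.trans h7
    refine (sum_le_sum h3).trans ?_
    refine le_trans (sum_le_sum_of_subset_of_nonneg (erase_subset _ _) fun t _ _ => ?_) (h2.trans ?_)
    · have : ∏ _p ∈ (pz H).filter (fun p => w < p ∧ (p : ℤ) ∣ (t : ℤ) + -s), (1 : ℝ) ≤
          ∏ p ∈ (pz H).filter (fun p => w < p ∧ (p : ℤ) ∣ (t : ℤ) + -s), (1 + C / (p : ℝ)) :=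
        prod_le_prod (fun _ _ => zero_le_one) fun p _ => hone p
      rw [prod_const_one] at this
      linarith
    · nlinarith

/-- **RAVT** -/
theorem ravT2 (k : ℕ) (η : ℝ) (hη : 0 < η) : ∃ w₀ : ℕ, 2 ≤ w₀ ∧ ∀ w : ℕ, w₀ ≤ w → ∀ᶠ N : ℕ in atTop, ∀ H y : ℕ,
    Real.log N ≤ H → H ≤ N → w ≤ y → ∀ j ≤ k,
    ∑ T ∈ (AW w 0 H).powersetCard j, |Pq (QW (sh 0 T)) y - GG w y ^ j| ≤ η * (GG w y * (AW w 0 H).card) ^ j := by
  classical
  have hk0 : (0 : ℝ) ≤ k := Nat.cast_nonneg k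
  obtain ⟨C, hC⟩ : ∃ C, C = (1 + 2 * (k : ℝ)) ^ (k * k) := ⟨_, rfl⟩
  have hC0 : 0 ≤ C := by rw [hC]; positivity
  obtain ⟨w₁, hw₁2, hw₁⟩ := rav1T C (η / 3) hC0 (by positivity)
  refine ⟨w₁ + (2 * k + 2) + ⌈8 * (k : ℝ) ^ 2⌉₊ + ⌈24 * (k : ℝ) ^ 2 / η⌉₊, by omega, fun w hw => ?_⟩
  obtain ⟨H₀, hH₀⟩ := hw₁ w (by omega)
  have hlogN : ∀ᶠ N : ℕ in atTop, (H₀ : ℝ) ≤ Real.log N :=
    (Real.tendsto_log_atTop.comp tendsto_natCast_atTop_atTop).eventually_ge_atTop _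
  filter_upwards [hlogN] with N hN H y hlog hHN hwy j hj
  obtain ⟨hr1, hr2⟩ := hH₀ H y (by exact_mod_cast hN.trans hlog)
  have hwc1 : ⌈8 * (k : ℝ) ^ 2⌉₊ ≤ w := by omega
  have hwc2 : ⌈24 * (k : ℝ) ^ 2 / η⌉₊ ≤ w := by omega
  have hwr1 : 8 * (k : ℝ) ^ 2 ≤ w := (Nat.le_ceil _).trans (Nat.cast_le.2 hwc1)
  have hwr2 : 24 * (k : ℝ) ^ 2 / η ≤ w := (Nat.le_ceil _).trans (Nat.cast_le.2 hwc2)
  have hw0 : (0 : ℝ) < w := by exact_mod_cast (by omega : 0 < w)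
  have hwk : 2 * k + 2 ≤ w := by omega
  have hCw : 8 * (k : ℝ) ^ 2 / w ≤ η / 3 := by
    rw [div_le_iff₀ hη] at hwr2
    rw [div_le_iff₀ hw0]
    linarith
  obtain ⟨A, hA⟩ : ∃ A, A = AW w 0 H := ⟨_, rfl⟩
  rw [← hA] at hr1 hr2 ⊢
  have hge : ∀ s t, 0 ≤ ∏ p ∈ Bp 0 w y s t, (1 + C / (p : ℝ)) - 1 := by
    intro s t
    have : ∏ _p ∈ Bp 0 w y s t, (1 : ℝ) ≤ ∏ p ∈ Bp 0 w y s t, (1 + C / (p : ℝ)) := by
      refine prod_le_prod (fun _ _ => zero_le_one) fun p _ => ?_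
      have : 0 ≤ C / (p : ℝ) := by positivity
      linarith
    rw [prod_const_one] at this
    linarith
  have hG0 : 0 ≤ GG w y := (Pq_GG (k := k) (y := y) hwk hwr1 (empty_subset (AW w 0 H)) (by simp)).2.2
  have hpt : ∀ T ∈ A.powersetCard j, |Pq (QW (sh 0 T)) y - GG w y ^ j| ≤ GG w y ^ j * (η / 3 +
      (∑ t ∈ T, (∏ p ∈ Bp 0 w y t t, (1 + C / (p : ℝ)) - 1) +
        ∑ s ∈ T, ∑ t ∈ T.erase s, (∏ p ∈ Bp 0 w y s t, (1 + C / (p : ℝ)) - 1))) := by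
    intro T hT
    rw [mem_powersetCard] at hT
    obtain ⟨h1, h2, h3⟩ := Pq_GG (k := k) (y := y) hwk hwr1 (hA ▸ hT.1) (by omega : T.card ≤ k)
    have h4 := BT_pairs (k := k) (N := 0) (w := w) (y := y) (T := T) (by omega)
    rw [← hC] at h4
    rw [hT.2] at h1 h2
    have h5 : ∑ s ∈ T, ∑ t ∈ T, (∏ p ∈ Bp 0 w y s t, (1 + C / (p : ℝ)) - 1) =
        ∑ t ∈ T, (∏ p ∈ Bp 0 w y t t, (1 + C / (p : ℝ)) - 1) +
        ∑ s ∈ T, ∑ t ∈ T.erase s, (∏ p ∈ Bp 0 w y s t, (1 + C / (p : ℝ)) - 1) := by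
      rw [← sum_add_distrib]
      refine sum_congr rfl fun s hs => ?_
      rw [add_sum_erase T (fun t => ∏ p ∈ Bp 0 w y s t, (1 + C / (p : ℝ)) - 1) hs]
    rw [h5] at h4
    have hGj : 0 ≤ GG w y ^ j := pow_nonneg hG0 j
    obtain ⟨S, hS⟩ : ∃ S, S = ∑ t ∈ T, (∏ p ∈ Bp 0 w y t t, (1 + C / (p : ℝ)) - 1) +
        ∑ s ∈ T, ∑ t ∈ T.erase s, (∏ p ∈ Bp 0 w y s t, (1 + C / (p : ℝ)) - 1) := ⟨_, rfl⟩
    have hS0 : 0 ≤ S := by
      rw [hS]
      exact add_nonneg (sum_nonneg fun t _ => hge t t) (sum_nonneg fun s _ => sum_nonneg fun t _ => hge s t)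
    rw [← hS] at h4 ⊢
    rw [abs_le]
    constructor
    · have h6 : 8 * (k : ℝ) ^ 2 / w * GG w y ^ j ≤ η / 3 * GG w y ^ j := mul_le_mul_of_nonneg_right hCw hGj
      have h7 : 0 ≤ GG w y ^ j * S := mul_nonneg hGj hS0
      nlinarith
    · have h6 : GG w y ^ j * ∏ p ∈ BT 0 w y T, (1 + 2 * (k : ℝ) / p) ≤ GG w y ^ j * (1 + S) :=
        mul_le_mul_of_nonneg_left (by linarith) hGj
      have h7 : 0 ≤ GG w y ^ j * (η / 3) := by positivity
      nlinarith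
  refine (sum_le_sum hpt).trans ?_
  rw [← mul_sum, mul_pow, mul_left_comm]
  refine mul_le_mul_of_nonneg_left ?_ (pow_nonneg hG0 j)
  rw [sum_add_distrib, sum_add_distrib, sum_const, nsmul_eq_mul]
  have hcard : (((A.powersetCard j).card : ℕ) : ℝ) ≤ (A.card : ℝ) ^ j := by
    rw [card_powersetCard]
    exact_mod_cast Nat.choose_le_pow A.card j
  have g1 := sum_one A j (fun t => ∏ p ∈ Bp 0 w y t t, (1 + C / (p : ℝ)) - 1) (fun t => hge t t)
  have g2 := sum_two A j (fun s t => ∏ p ∈ Bp 0 w y s t, (1 + C / (p : ℝ)) - 1) hge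
  have f1 : ∑ t ∈ A, (∏ p ∈ Bp 0 w y t t, (1 + C / (p : ℝ)) - 1) ≤ η / 3 * A.card := by
    refine le_trans (le_of_eq ?_) hr1
    refine sum_congr rfl fun t _ => ?_
    unfold Bp bd
    simp
  have f2 : ∑ s ∈ A, ∑ t ∈ A.erase s, (∏ p ∈ Bp 0 w y s t, (1 + C / (p : ℝ)) - 1) ≤
      A.card * (η / 3 * A.card) := by
    rw [← nsmul_eq_mul, ← sum_const]
    refine sum_le_sum fun s hs => ?_
    refine le_trans (le_of_eq ?_) (hr2 s hs)
    refine sum_congr rfl fun t ht => ?_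
    have hne : s ≠ t := (ne_of_mem_erase ht).symm
    unfold Bp bd
    simp only [if_neg hne]
  have hcj : (0 : ℝ) ≤ (A.card : ℝ) ^ j := by positivity
  rcases Nat.eq_zero_or_pos A.card with h0 | hpos
  · have hAe : A = ∅ := card_eq_zero.1 h0
    have h1 : ∀ T ∈ A.powersetCard j, T = ∅ := fun T hT => by
      have := (mem_powersetCard.1 hT).1
      rw [hAe] at this
      exact subset_empty.1 this
    have e1 : ∑ T ∈ A.powersetCard j, ∑ t ∈ T, (∏ p ∈ Bp 0 w y t t, (1 + C / (p : ℝ)) - 1) = 0 :=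
      sum_eq_zero fun T hT => by rw [h1 T hT, sum_empty]
    have e2 : ∑ T ∈ A.powersetCard j, ∑ s ∈ T, ∑ t ∈ T.erase s,
        (∏ p ∈ Bp 0 w y s t, (1 + C / (p : ℝ)) - 1) = 0 :=
      sum_eq_zero fun T hT => by rw [h1 T hT, sum_empty]
    rw [e1, e2]
    have := mul_le_mul_of_nonneg_right hcard (by positivity : 0 ≤ η / 3)
    nlinarith
  · have hc : (0 : ℝ) < A.card := by exact_mod_cast hpos
    have k1 : ∑ T ∈ A.powersetCard j, ∑ t ∈ T, (∏ p ∈ Bp 0 w y t t, (1 + C / (p : ℝ)) - 1) ≤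
        η / 3 * (A.card : ℝ) ^ j := by
      have h1 := g1.trans (mul_le_mul_of_nonneg_left f1 hcj)
      refine le_of_mul_le_mul_right (h1.trans (le_of_eq ?_)) hc
      ring
    have k2 : ∑ T ∈ A.powersetCard j, ∑ s ∈ T, ∑ t ∈ T.erase s,
        (∏ p ∈ Bp 0 w y s t, (1 + C / (p : ℝ)) - 1) ≤ η / 3 * (A.card : ℝ) ^ j := by
      have h1 := g2.trans (mul_le_mul_of_nonneg_left f2 hcj)
      refine le_of_mul_le_mul_right (h1.trans (le_of_eq ?_)) (pow_pos hc 2)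
      ring
    have k3 := mul_le_mul_of_nonneg_right hcard (by positivity : 0 ≤ η / 3)
    nlinarith

end Pool.Agent.J4.H55.DV
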